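import Pool.Agent.Q132.GU.EC

/-!
# Goncharov's complexes and existentially closed base fields

Let `F` be an extension of a field `k` such that every finitely generated `k`-subalgebra of `F` has
a `k`-rational point, i.e. `k` is existentially closed in `F` (`ExClosed k F`). Examples: `k` is
algebraically closed and `F` is arbitrary; `k` is infinite and `F` is a purely transcendental
extension; `k` is real closed and `F` can be ordered; `k` is pseudo algebraically closed and `F` is
regular over `k`.

Then for every `n ≥ 2` the homomorphism `B_n(k) → B_n(F)` is injective (integrally), an element of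
`ℤ[P^1_k]` is killed by `δ_n` if and only if it is killed by `δ_n` over `F`, and the map of
complexes `Γ(k,n) ⊗ ℚ → Γ(F,n) ⊗ ℚ` is injective on all terms and on the cohomology in all degrees.

The question Q1 identifies the cohomology of `Γ(F,n) ⊗ ℚ` with graded pieces of `K_*(F) ⊗ ℚ`,
naturally in `F`. The maps `K_m(k) → K_m(F)` are injective for these extensions, because `K_m(F)` is
the direct limit of the groups `K_m(R)`, `R` a finitely generated `k`-subalgebra of `F`. The groups
`B_n(F)` are only defined for fields, the relations of weight `n` are values at `0` and `1` of the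
elements of `ℤ[P^1_{F(t)}]` killed by `δ_n`, and these elements need not specialise under a place.

Proof. `F` embeds over `k` in an ultrapower `k*` of `k`. It is shown by induction on `n`, for all
fields `K` and all ultrapowers `K*`, that an element of `R_n(K*)` is the class of a family of
elements of `R_n(K)`: the field `K*(t)` embeds in the ultrapower `K(t)*`, compatibly with the values
at `0` and `1` in the projective line, and `B_{n-1}(K(t)*) ⊗ (K(t)*)^*` maps to the ultrapower of
`B_{n-1}(K(t)) ⊗ K(t)^*` by the induction hypothesis. So the complexes `Γ(k,n)` and `Γ(F,n)` map to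
the ultrapower of `Γ(k,n)`.

Definitions: `ExClosed` and `InjectsCohomology` in `Pool/Agent/Q132/GU/EC.lean` and `Coh.lean`, the
groups and complexes in `Pool/Agent/H39R2/GonP/Defs.lean` (starting library), `InducedB`, `Induced`,
`InducedL` in `Pool/Agent/TH358/GP/Defs.lean` (starting library).
-/

set_option autoImplicit false

namespace Pool.Agent.Results.MP_9c6ec7_al.ExistentiallyClosed

open GonP Pool.Agent.TH358.GP Pool.Agent.Q132.GU

theorem result (k F : Type) [Field k] [Field F] [Algebra k F] :
    -- `k` is existentially closed in all its extensions if it is algebraically closed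
    (IsAlgClosed k → ExClosed k F) ∧
    (ExClosed k F →
      -- `B_n(k) → B_n(F)`, `{x}_n ↦ {x}_n`, is well defined and injective for all `n ≥ 2`
      (∀ n : ℕ, 2 ≤ n → ∃ T : B n k → B n F, InducedB (algebraMap k F) n T ∧
        Function.Injective T) ∧
      -- `δ_2 α = 0` over `k` if and only if `δ_2 α = 0` over `F`, for `α ∈ ℤ[P^1_k]`
      (∀ α : ZP k, α.mapDomain (Option.map (algebraMap k F)) ∈ A2 F ↔ α ∈ A2 k) ∧
      -- the same for `δ_n`, `n = m + 3`
      (∀ (m : ℕ) (α : ZP k), α.mapDomain (Option.map (algebraMap k F)) ∈ AS F (R (m + 2) F) ↔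
        α ∈ AS k (R (m + 2) k)) ∧
      -- `Γ(k,n) ⊗ ℚ → Γ(F,n) ⊗ ℚ` is injective on the terms and on the cohomology
      InjectsCohomology (algebraMap k F)) := by
  refine ⟨fun h => exClosed_of_isAlgClosed, fun h => ⟨fun n hn => ?_, fun α => ⟨fun hα => ?_,
    fun hα => ?_⟩, fun m α => ⟨fun hα => ?_, fun hα => ?_⟩, main_coh h⟩⟩
  · obtain ⟨m, rfl⟩ := Nat.exists_eq_add_of_le' hn
    refine ⟨bG (algebraMap k F) (m + 2) (by omega), ⟨fun b c => map_add _ b c, fun x =>
      bG_gen (algebraMap k F) (m + 2) (by omega) x⟩, fun b c hbc => ?_⟩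
    obtain ⟨α, rfl⟩ := b_mk b
    obtain ⟨β, rfl⟩ := b_mk c
    rw [bG_mk, bG_mk] at hbc
    exact main_B h m α β hbc
  · exact main_A2 h α hα
  · have h1 : H39Gon.delta2 k α = 0 := by
      rw [A2_eq] at hα
      exact hα
    rw [A2_eq]
    change H39Gon.delta2 F (H39Gon.rmM (algebraMap k F) α) = 0
    rw [H39Gon.rm_delta2, h1, map_zero]
  · exact main_AS h m α hα
  · have h1 : H39Gon.deltaS k (H39Gon.R (m + 2) k) α = 0 := by
      rw [AS_eq (H39Gon.R (m + 2) k) _ (R_eq m)] at hα
      exact hα
    rw [AS_eq (H39Gon.R (m + 2) F) _ (R_eq m)]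
    change H39Gon.deltaS F (H39Gon.R (m + 2) F) (H39Gon.rmM (algebraMap k F) α) = 0
    rw [H39Gon.rm_deltaS (algebraMap k F) (H39Gon.R (m + 2) k) (H39Gon.R (m + 2) F)
      (fun s hs => H39Gon.R_map (algebraMap k F) m s hs), h1, map_zero]

end Pool.Agent.Results.MP_9c6ec7_al.ExistentiallyClosed
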