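import Pool.Agent.Q132.GU.Ret

/-!
# Goncharov's complexes of retract rational function fields over arbitrary infinite fields

Let `k` be any infinite field and `F` the function field of a retract rational variety over `k`
(for instance `F = k(x_1, …, x_d)`, or a stably rational function field). For all `n ≥ 2` let
`δ_n` be Goncharov's homomorphisms on `ℤ[P^1_F]`, with `R_n(F) ⊆ ker δ_n`. Then

* every element of `ker δ_n` over `F` is modulo `R_n(F)` the image of an element of `ker δ_n` over
  `k`,
* `B_n(k) → B_n(F)` is injective,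

so `H^1(Γ(k,n)) = H^1(Γ(F,n))`, integrally, and `Γ(k,n) ⊗ ℚ → Γ(F,n) ⊗ ℚ` is injective on the terms
and on the cohomology in all degrees.

Proof. Let `x_0` be the generic point of `k^N` with respect to an ultrafilter which contains the
nonempty Zariski open sets. The values of the elements of `F` at the rational points give an
embedding of `F` into an ultrapower of `k`, and for the elements of any finite set there are a
rational point and a path: a homomorphism `F → F(t)` such that the values at `t = 1` are the given
elements and the values at `t = 0` are their values at the rational point. So `α` with `δ_n α = 0`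
is modulo `R_n(F)` its value `α(x_0) ∈ ℤ[P^1_k]`, and `δ_n α(x_0) = 0` for most `x_0` by the
transfer theorem for ultrapowers (`ker δ_n` of the ultrapower consists of the families in `ker δ_n`).

Definitions: the groups and complexes in `Pool/Agent/H39R2/GonP/Defs.lean` and `RetractRational` in
`Pool/Agent/TH358/GP/Ret.lean` (starting library), `InjectsCohomology` in
`Pool/Agent/Q132/GU/Coh.lean`.
-/

set_option autoImplicit false

namespace Pool.Agent.Results.MP_9c6ec7_al.RetractRationalExtensions

open GonP Pool.Agent.TH358.GP Pool.Agent.Q132.GU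

theorem result (k F : Type) [Field k] [Field F] [Algebra k F] (hk : Infinite k)
    (hF : RetractRational k F) :
    -- `n = 2`: the elements killed by `δ_2` come from `k`
    (∀ α ∈ A2 F, ∃ β ∈ A2 k,
      toQuo (R 2 F) α = toQuo (R 2 F) (β.mapDomain (Option.map (algebraMap k F)))) ∧
    -- `n = m + 3`: the elements killed by `δ_n` come from `k`
    (∀ (m : ℕ), ∀ α ∈ AS F (R (m + 2) F), ∃ β ∈ AS k (R (m + 2) k),
      toQuo (R (m + 3) F) α = toQuo (R (m + 3) F) (β.mapDomain (Option.map (algebraMap k F)))) ∧
    -- `B_n(k) → B_n(F)` is well defined and injective for all `n ≥ 2`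
    (∀ n : ℕ, 2 ≤ n → ∃ T : B n k → B n F, InducedB (algebraMap k F) n T ∧
      Function.Injective T) ∧
    -- `Γ(k,n) ⊗ ℚ → Γ(F,n) ⊗ ℚ` is injective on the terms and on the cohomology
    InjectsCohomology (algebraMap k F) := by
  classical
  obtain ⟨N, U, v, e, hv, he, -⟩ := exists_retract hF
  refine ⟨fun α hα => ?_, fun m α hα => ?_, fun n hn => ?_, injects U e (algebraMap k F) he⟩
  · rw [A2_eq] at hα
    obtain ⟨β, hβ, h⟩ := const_two hF α hα
    refine ⟨β, ?_, ?_⟩
    · rw [A2_eq]
      exact hβ
    · refine (QuotientAddGroup.eq_iff_sub_mem).2 ?_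
      change _ ∈ GonP.R (0 + 2) F
      rw [R_eq]
      exact h
  · rw [AS_eq (H39Gon.R (m + 2) F) _ (R_eq m)] at hα
    obtain ⟨β, hβ, h⟩ := const_step hF m α hα
    refine ⟨β, ?_, ?_⟩
    · rw [AS_eq (H39Gon.R (m + 2) k) _ (R_eq m)]
      exact hβ
    · refine (QuotientAddGroup.eq_iff_sub_mem).2 ?_
      change _ ∈ GonP.R ((m + 1) + 2) F
      rw [R_eq]
      exact h
  · obtain ⟨m, rfl⟩ := Nat.exists_eq_add_of_le' hn
    refine ⟨bG (algebraMap k F) (m + 2) (by omega), ⟨fun b c => map_add _ b c, fun x =>
      bG_gen (algebraMap k F) (m + 2) (by omega) x⟩, fun b c hbc => ?_⟩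
    obtain ⟨α, rfl⟩ := b_mk b
    obtain ⟨β, rfl⟩ := b_mk c
    rw [bG_mk, bG_mk] at hbc
    have h1 : H39Gon.rmM (algebraMap k F) (α - β) ∈ H39Gon.R (m + 2) F := by
      have h2 : H39Gon.rmM (algebraMap k F) α - H39Gon.rmM (algebraMap k F) β ∈
          GonP.R (m + 2) F := (QuotientAddGroup.eq_iff_sub_mem).1 hbc
      rw [R_eq, ← map_sub] at h2
      exact h2
    have h3 := mem_R U (algebraMap k F) e he m _ h1
    refine (QuotientAddGroup.eq_iff_sub_mem).2 ?_
    rw [R_eq]
    exact h3

end Pool.Agent.Results.MP_9c6ec7_al.RetractRationalExtensions
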